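import Mathlib

/-!
Totient sums `q` and the next term `p_q - q + 1` of the chain have no local obstruction.
-/

namespace Pool.Agent.Lib.MP_db85a3_nt.RoughChain

/-- The `m`-th prime, with `pr 1 = 2`. -/
noncomputable def pr (m : ℕ) : ℕ := Nat.nth Nat.Prime (m - 1)

/-- The step `m ↦ p_m - m + 1` of the chain. -/
noncomputable def nx (m : ℕ) : ℕ := pr m - m + 1

/-- The totient sum `φ(k) + φ(n - k) / 3 + 1`. -/
def qq (n k : ℕ) : ℕ := Nat.totient k + Nat.totient (n - k) / 3 + 1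

theorem pr_ge (m : ℕ) (hm : 1 ≤ m) : m + 1 ≤ pr m := by
  have := Nat.add_two_le_nth_prime (m - 1)
  unfold pr
  omega

theorem pr_prime (m : ℕ) : (pr m).Prime := Nat.prime_nth_prime _

theorem not_dvd_nx {l m : ℕ} (hl : l.Prime) (hm : 1 ≤ m) (hlm : l ≤ m) (h : l ∣ m - 1) :
    ¬ l ∣ nx m := by
  intro h2
  have h3 := pr_ge m hm
  have h4 : l ∣ pr m := by
    have e : pr m = nx m + (m - 1) := by unfold nx; omega
    rw [e]
    exact dvd_add h2 h
  have := (Nat.prime_dvd_prime_iff_eq hl (pr_prime m)).1 h4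
  omega

theorem cop {M l : ℕ} (hM : 1 ≤ M) (hl : 1 ≤ l) : Nat.Coprime M (M ^ l - 1) := by
  have h1 : 1 ≤ M ^ l := Nat.one_le_pow _ _ hM
  have h2 : Nat.Coprime (M ^ l) (M ^ l - 1) := by
    have e : M ^ l = (M ^ l - 1) + 1 := by omega
    conv_lhs => rw [e]
    simp
  exact Nat.Coprime.coprime_dvd_left (dvd_pow_self M (by omega)) h2

theorem tot {M l : ℕ} (hM : 2 ≤ M) (hl : l.Prime) : l ∣ Nat.totient (M ^ l - 1) := by
  have := Fact.mk hl
  have h1 : 1 ≤ M ^ l := Nat.one_le_pow _ _ (by omega)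
  have h2 : M * M ≤ M ^ l := by
    rw [← sq]
    exact Nat.pow_le_pow_right (by omega) hl.two_le
  have h3 : 2 * M ≤ M * M := Nat.mul_le_mul_right M hM
  have o : orderOf (M : ZMod (M ^ l - 1)) = l := by
    refine orderOf_eq_prime ?_ fun h => ?_
    · have : ((M ^ l : ℕ) : ZMod (M ^ l - 1)) = ((1 : ℕ) : ZMod (M ^ l - 1)) :=
        (ZMod.natCast_eq_natCast_iff _ _ _).2 ((Nat.modEq_iff_dvd' h1).2 dvd_rfl).symm
      simpa using this
    · have h4 : ((1 : ℕ) : ZMod (M ^ l - 1)) = (M : ZMod (M ^ l - 1)) := by simpa using h.symm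
      have h5 := (Nat.modEq_iff_dvd' (by omega)).1 ((ZMod.natCast_eq_natCast_iff _ _ _).1 h4)
      have := Nat.le_of_dvd (by omega) h5
      omega
  have h6 : orderOf (M : ZMod (M ^ l - 1)) ∣ Nat.totient (M ^ l - 1) := by
    refine orderOf_dvd_of_pow_eq_one ?_
    have := (ZMod.natCast_eq_natCast_iff _ _ _).2
      (Nat.ModEq.pow_totient (cop (M := M) (l := l) (by omega) hl.one_le))
    simpa using this
  rwa [o] at h6

theorem tm {M : ℕ} (hM : 0 < M) (c : ℕ) :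
    Nat.totient (M * (M * c)) = M * Nat.totient (M * c) := by
  have h := Nat.totient_gcd_mul_totient_mul M (M * c)
  rw [Nat.gcd_eq_left (dvd_mul_right M c), mul_assoc] at h
  rw [Nat.eq_of_mul_eq_mul_left (Nat.totient_pos.2 hM) h, mul_comm]

theorem result (y : ℕ) (hy : 3 ≤ y) : ∃ D, 0 < D ∧ D ≤ 4 ^ (y ^ 3 + 3 * y) ∧
    ∀ n, ∃ a, ∀ k, 1 ≤ k → k < n → k ≡ a [MOD D] → 3 ∣ Nat.totient (n - k) ∧
      (∀ l, l.Prime → l ≤ y → ¬ l ∣ qq n k ∧ ¬ l ∣ nx (qq n k)) ∧ Odd (nx (nx (qq n k))) := by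
  obtain ⟨M, hM⟩ : ∃ M, M = primorial y := ⟨_, rfl⟩
  have hM0 : 0 < M := hM ▸ primorial_pos _
  have hM4 : M ≤ 4 ^ y := hM ▸ primorial_le_four_pow _
  have hd : ∀ l, l.Prime → l ≤ y → l ∣ M := fun l hl h => by
    rw [hM, primorial]
    exact Finset.dvd_prod_of_mem _ (Finset.mem_filter.2 ⟨Finset.mem_range.2 (by omega), hl⟩)
  have hM3 : 3 ≤ M := Nat.le_of_dvd hM0 (hd 3 Nat.prime_three hy)
  obtain ⟨A, hA⟩ : ∃ A, A = ∏ l ∈ Finset.Icc 1 y, (M ^ l - 1) := ⟨_, rfl⟩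
  have hA0 : 0 < A := by
    rw [hA]
    refine Finset.prod_pos fun l hl => ?_
    have := Nat.one_lt_pow (n := l) (a := M) (by have := (Finset.mem_Icc.1 hl).1; omega) (by omega)
    omega
  have hAle : A ≤ (M ^ y) ^ y := by
    rw [hA]
    refine (Finset.prod_le_pow_card _ _ (M ^ y) fun l hl => ?_).trans (by simp)
    exact (Nat.sub_le _ _).trans (Nat.pow_le_pow_right hM0 (Finset.mem_Icc.1 hl).2)
  have hc : Nat.Coprime A (M ^ 3) := by
    refine Nat.Coprime.pow_right 3 (Nat.Coprime.symm ?_)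
    rw [hA]
    exact Nat.Coprime.prod_right fun l hl => cop hM0 (Finset.mem_Icc.1 hl).1
  refine ⟨A * M ^ 3, Nat.mul_pos hA0 (pow_pos hM0 3), ?_, fun n => ?_⟩
  · calc A * M ^ 3 ≤ (M ^ y) ^ y * M ^ 3 := Nat.mul_le_mul_right _ hAle
      _ = M ^ (y * y + 3) := by rw [← pow_mul, pow_add]
      _ ≤ (4 ^ y) ^ (y * y + 3) := Nat.pow_le_pow_left hM4 _
      _ = 4 ^ (y ^ 3 + 3 * y) := by rw [← pow_mul]; congr 1; ring
  obtain ⟨a, ha1, ha2⟩ := Nat.chineseRemainder hc 0 n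
  refine ⟨a, fun k hk hkn h => ?_⟩
  have k1 : A ∣ k := Nat.modEq_zero_iff_dvd.1 ((h.of_mul_right _).trans ha1)
  have k2 : M ^ 3 ∣ n - k := (Nat.modEq_iff_dvd' hkn.le).1 ((h.of_mul_left A).trans ha2)
  have t1 : ∀ l, l.Prime → l ≤ y → l ∣ Nat.totient k := fun l hl h => by
    refine dvd_trans (tot (M := M) (by omega) hl) (Nat.totient_dvd_of_dvd (dvd_trans ?_ k1))
    rw [hA]
    exact Finset.dvd_prod_of_mem _ (Finset.mem_Icc.2 ⟨hl.one_le, h⟩)
  have t2 : 3 * M ∣ Nat.totient (n - k) := by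
    refine dvd_trans ?_ (Nat.totient_dvd_of_dvd k2)
    have e : Nat.totient (M ^ 3) = M * (M * Nat.totient (M * 1)) := by
      rw [← tm hM0, ← tm hM0]
      congr 1
      ring
    rw [e, mul_comm 3 M]
    exact Nat.mul_dvd_mul_left M (dvd_mul_of_dvd_left (hd 3 Nat.prime_three hy) _)
  have key : ∀ l, l.Prime → l ≤ y → ¬ l ∣ qq n k ∧ ¬ l ∣ nx (qq n k) := by
    intro l hl hly
    have e : qq n k - 1 = Nat.totient k + Nat.totient (n - k) / 3 := by unfold qq; omega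
    have h1 : l ∣ qq n k - 1 := by
      rw [e]
      exact dvd_add (t1 l hl hly) (dvd_trans (hd l hl hly) (Nat.dvd_div_of_mul_dvd t2))
    have h0 : l ≤ Nat.totient k := Nat.le_of_dvd (Nat.totient_pos.2 hk) (t1 l hl hly)
    have h5 : l + 1 ≤ qq n k := by unfold qq; omega
    refine ⟨fun h2 => ?_, not_dvd_nx hl (by omega) (by omega) h1⟩
    have h3 : l ∣ qq n k - (qq n k - 1) := Nat.dvd_sub h2 h1
    have e : qq n k - (qq n k - 1) = 1 := by omega
    rw [e] at h3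
    exact hl.one_lt.ne' (Nat.dvd_one.1 h3)
  refine ⟨dvd_trans (dvd_mul_right 3 M) t2, key, ?_⟩
  have h2 := (key 2 Nat.prime_two (by omega)).2
  have h3 : 2 ≤ nx (qq n k) := by
    have := pr_ge (qq n k) (by unfold qq; omega)
    unfold nx
    omega
  have h4 := not_dvd_nx Nat.prime_two (m := nx (qq n k)) (by omega) h3 (by omega)
  exact Nat.odd_iff.2 (by omega)

end Pool.Agent.Lib.MP_db85a3_nt.RoughChain
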