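import Mathlib

namespace Pool.Agent.Lib.MP_db85a3_nt.WindowFail

open Filter Topology ArithmeticFunction.vonMangoldt in
/-- The reciprocals of the primes congruent to one modulo `W` are not summable. -/
theorem not_summable_inv (W : ℕ) [NeZero W] :
    ¬ Summable fun n : ℕ => if n.Prime ∧ (n : ZMod W) = 1 then (n : ℝ)⁻¹ else 0 := by
  intro hs
  obtain ⟨C, hC⟩ := LSeries_residueClass_lower_bound (q := W) (a := 1) isUnit_one
  have hb := (summable_residueClass_non_primes_div (q := W) (1 : ZMod W)).add hs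
  have hsub : Tendsto (fun x : ℝ => x - 1) (𝓝[>] 1) (𝓝 0) := by
    have : Tendsto (fun x : ℝ => x - 1) (𝓝 1) (𝓝 (1 - 1)) :=
      (continuous_id.sub continuous_const).tendsto 1
    rw [sub_self] at this
    exact this.mono_left nhdsWithin_le_nhds
  have hI : ∀ᶠ x : ℝ in 𝓝[>] 1, x ∈ Set.Ioc (1 : ℝ) 2 := Ioc_mem_nhdsGT (by norm_num)
  have hbound : ∀ x ∈ Set.Ioc (1 : ℝ) 2, ∀ n : ℕ,
      ‖(x - 1) * (residueClass (1 : ZMod W) n / (n : ℝ) ^ x)‖ ≤
        (if n.Prime then 0 else residueClass (1 : ZMod W) n) / n +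
          (if n.Prime ∧ (n : ZMod W) = 1 then (n : ℝ)⁻¹ else 0) := by
    intro x hx n
    have hr := residueClass_nonneg (1 : ZMod W) n
    have hx0 : 0 ≤ x - 1 := by linarith [hx.1]
    rw [Real.norm_of_nonneg (by positivity)]
    rcases Nat.eq_zero_or_pos n with rfl | hn
    · simp
    have hn1 : (1 : ℝ) ≤ n := by exact_mod_cast hn
    have hn0 : (0 : ℝ) < n := by linarith
    have hpow : (n : ℝ) ^ x = n * Real.exp ((x - 1) * Real.log n) := by
      rw [Real.rpow_def_of_pos hn0]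
      nth_rw 2 [← Real.exp_log hn0]
      rw [← Real.exp_add]; congr 1; ring
    have he := Real.add_one_le_exp ((x - 1) * Real.log n)
    have hl : 0 ≤ (x - 1) * Real.log n := mul_nonneg hx0 (Real.log_nonneg hn1)
    have hep := Real.exp_pos ((x - 1) * Real.log n)
    by_cases hp : n.Prime
    · by_cases h1 : (n : ZMod W) = 1
      · have : residueClass (1 : ZMod W) n = Real.log n := by
          simp [residueClass, Set.indicator, h1, ArithmeticFunction.vonMangoldt_apply_prime hp]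
        rw [this, hpow, if_pos hp, if_pos ⟨hp, h1⟩, zero_div, zero_add, ← mul_div_assoc,
          div_le_iff₀ (by positivity), ← mul_assoc, inv_mul_cancel₀ hn0.ne']
        linarith
      · simp [h1]
    · rw [if_neg hp, if_neg (fun h => hp h.1), add_zero, hpow]
      have h2 : residueClass (1 : ZMod W) n / (n * Real.exp ((x - 1) * Real.log n)) ≤
          residueClass (1 : ZMod W) n / n :=
        div_le_div_of_nonneg_left hr hn0 (le_mul_of_one_le_right hn0.le (by linarith))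
      have h3 : x - 1 ≤ 1 := by linarith [hx.2]
      exact (mul_le_of_le_one_left (by positivity) h3).trans h2
  have hpt : ∀ n : ℕ, Tendsto
      (fun x : ℝ => (x - 1) * (residueClass (1 : ZMod W) n / (n : ℝ) ^ x)) (𝓝[>] 1) (𝓝 0) := by
    intro n
    rcases Nat.eq_zero_or_pos n with rfl | hn
    · simp
    have hn0 : (0 : ℝ) < n := by exact_mod_cast hn
    have h1 : Tendsto (fun x : ℝ => residueClass (1 : ZMod W) n / (n : ℝ) ^ x) (𝓝[>] 1)
        (𝓝 (residueClass (1 : ZMod W) n / (n : ℝ) ^ (1 : ℝ))) :=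
      (tendsto_const_nhds.div ((Real.continuous_const_rpow hn0.ne').tendsto 1)
        (by positivity)).mono_left nhdsWithin_le_nhds
    simpa using hsub.mul h1
  have hlim := tendsto_tsum_of_dominated_convergence hb hpt (hI.mono hbound)
  rw [tsum_zero] at hlim
  have hlow : Tendsto (fun x : ℝ => (W.totient : ℝ)⁻¹ - (x - 1) * C) (𝓝[>] 1)
      (𝓝 ((W.totient : ℝ)⁻¹ - 0 * C)) := tendsto_const_nhds.sub (hsub.mul_const C)
  have hle := le_of_tendsto_of_tendsto hlow hlim (hI.mono fun x hx => by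
    have hx0 : 0 < x - 1 := by linarith [hx.1]
    have := mul_le_mul_of_nonneg_left (hC hx) hx0.le
    simp only [tsum_mul_left]
    rw [mul_sub, mul_div_cancel₀ _ hx0.ne'] at this
    exact this)
  have hq : 0 < (W.totient : ℝ)⁻¹ := inv_pos.mpr (mod_cast W.totient.pos_of_neZero)
  linarith

/-- A modulus with all prime factors congruent to one modulo `W` and small relative totient. -/
theorem exists_modulus (W : ℕ) [NeZero W] (ε : ℝ) (hε : 0 < ε) :
    ∃ L : ℕ, L ≠ 0 ∧ (∀ l : ℕ, l.Prime → l ∣ L → (l : ZMod W) = 1) ∧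
      (L.totient : ℝ) ≤ ε * L := by
  have h := (not_summable_iff_tendsto_nat_atTop_of_nonneg (fun n => by
    split_ifs <;> positivity)).1 (not_summable_inv W)
  obtain ⟨N, hN⟩ := (h.eventually_ge_atTop ε⁻¹).exists
  set P := (Finset.range N).filter (fun n : ℕ => n.Prime ∧ (n : ZMod W) = 1) with hP
  have hPp : ∀ p ∈ P, p.Prime := fun p hp => (Finset.mem_filter.1 hp).2.1
  have hL : (∏ p ∈ P, p).primeFactors = P := Nat.primeFactors_prod hPp
  have hL0 : ∏ p ∈ P, p ≠ 0 := Finset.prod_ne_zero_iff.2 fun p hp => (hPp p hp).ne_zero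
  refine ⟨∏ p ∈ P, p, hL0, fun l hl hd => ?_, ?_⟩
  · have : l ∈ P := hL ▸ Nat.mem_primeFactors.2 ⟨hl, hd, hL0⟩
    exact (Finset.mem_filter.1 this).2.2
  · have h1 := Nat.totient_eq_mul_prod_factors (∏ p ∈ P, p)
    rw [hL] at h1
    have h2 : ((∏ p ∈ P, p).totient : ℝ) = (∏ p ∈ P, p : ℕ) * ∏ p ∈ P, (1 - (p : ℝ)⁻¹) := by
      have h6 := congrArg (fun z : ℚ => (z : ℝ)) h1
      push_cast at h6 ⊢
      exact h6
    rw [← Finset.sum_filter, ← hP] at hN
    have h3 : ∏ p ∈ P, (1 - (p : ℝ)⁻¹) ≤ ∏ p ∈ P, Real.exp (-(p : ℝ)⁻¹) :=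
      Finset.prod_le_prod (fun p hp => sub_nonneg.2 (inv_le_one_of_one_le₀
        (by exact_mod_cast (hPp p hp).one_le))) fun p _ => Real.one_sub_le_exp_neg _
    rw [← Real.exp_sum, Finset.sum_neg_distrib, Real.exp_neg] at h3
    have h4 : (Real.exp (∑ p ∈ P, (p : ℝ)⁻¹))⁻¹ ≤ ε := by
      apply inv_le_of_inv_le₀ hε
      linarith [Real.add_one_le_exp (∑ p ∈ P, (p : ℝ)⁻¹)]
    rw [h2, mul_comm]
    exact mul_le_mul_of_nonneg_right (h3.trans h4) (by positivity)

/-- Few `n` below `N` have `W` not dividing the totient of `n - j`. -/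
theorem count_shift (W : ℕ) [NeZero W] (ε : ℝ) (hε : 0 < ε) :
    ∃ L : ℕ, ∀ N j : ℕ,
      (((Finset.range N).filter fun n => j < n ∧ ¬ W ∣ Nat.totient (n - j)).card : ℝ) ≤
        ε * N + ε * L := by
  obtain ⟨L, hL0, hL, hφ⟩ := exists_modulus W ε hε
  refine ⟨L, fun N j => ?_⟩
  have h1 : ((Finset.range N).filter fun n => j < n ∧ ¬ W ∣ Nat.totient (n - j)).card ≤
      ((Finset.Ico 0 (0 + N)).filter fun x => L.Coprime x).card := by
    refine Finset.card_le_card_of_injOn (fun n => n - j) (fun n hn => ?_) (fun a ha b hb hab => ?_)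
    · simp only [Finset.coe_filter, Finset.mem_range, Set.mem_ofPred_eq, Finset.mem_Ico] at hn ⊢
      refine ⟨⟨by omega, by omega⟩, ?_⟩
      by_contra hc
      obtain ⟨l, hl, h1, h2⟩ := Nat.Prime.not_coprime_iff_dvd.1 hc
      have h4 : Nat.totient l ∣ Nat.totient (n - j) := Nat.totient_dvd_of_dvd h2
      rw [Nat.totient_prime hl] at h4
      have h5 : l ≡ 1 [MOD W] := (ZMod.natCast_eq_natCast_iff l 1 W).1 (by simpa using hL l hl h1)
      exact hn.2.2 (((Nat.modEq_iff_dvd' hl.one_lt.le).1 h5.symm).trans h4)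
    · simp only [Finset.coe_filter, Finset.mem_range, Set.mem_ofPred_eq] at ha hb hab
      omega
  have h2 := h1.trans (Nat.Ico_filter_coprime_le 0 N hL0)
  have h3 : ((N / L : ℕ) : ℝ) * L ≤ N := by exact_mod_cast Nat.div_mul_le_self N L
  have h4 : (0 : ℝ) ≤ (N / L : ℕ) := by positivity
  calc _ ≤ ((L.totient * (N / L + 1) : ℕ) : ℝ) := by exact_mod_cast h2
    _ = (L.totient : ℝ) * (((N / L : ℕ) : ℝ) + 1) := by push_cast; rfl
    _ ≤ ε * L * (((N / L : ℕ) : ℝ) + 1) := mul_le_mul_of_nonneg_right hφ (by positivity)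
    _ ≤ ε * N + ε * L := by nlinarith [mul_le_mul_of_nonneg_left h3 hε.le]

/-- A residue class of `n` on which `W` divides the totient of `n - j` for all `1 ≤ j ≤ K`. -/
theorem window_dvd (W : ℕ) (hW : W ≠ 0) (K : ℕ) :
    ∃ D a : ℕ, 0 < D ∧ ∀ n : ℕ, n ≡ a [MOD D] → ∀ j : ℕ, 1 ≤ j → j ≤ K → j < n →
      W ∣ Nat.totient (n - j) := by
  induction K with
  | zero => exact ⟨1, 0, one_pos, fun n _ j h1 h2 _ => absurd h2 (by omega)⟩
  | succ K ih =>
    obtain ⟨D, a, hD, h⟩ := ih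
    obtain ⟨l, hl, hlD, hl1⟩ := Nat.exists_prime_gt_modEq_one D hW
    have hco : D.Coprime l :=
      (Nat.coprime_comm.1 (hl.coprime_iff_not_dvd.2 (Nat.not_dvd_of_pos_of_lt hD hlD)))
    obtain ⟨b, hb1, hb2⟩ := Nat.chineseRemainder hco a (K + 1)
    refine ⟨D * l, b, Nat.mul_pos hD hl.pos, fun n hn j h1 h2 h3 => ?_⟩
    rcases Nat.lt_or_ge j (K + 1) with hj | hj
    · exact h n ((Nat.ModEq.of_mul_right l hn).trans hb1) j h1 (by omega) h3
    · have hjK : j = K + 1 := by omega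
      have hnl : n ≡ K + 1 [MOD l] := (Nat.ModEq.of_mul_left D hn).trans hb2
      have hdvd : l ∣ n - j := by
        rw [hjK]
        exact (Nat.modEq_iff_dvd' (by omega)).1 hnl.symm
      have h4 : Nat.totient l ∣ Nat.totient (n - j) := Nat.totient_dvd_of_dvd hdvd
      rw [Nat.totient_prime hl] at h4
      exact ((Nat.modEq_iff_dvd' hl.one_lt.le).1 hl1.symm).trans h4

theorem not_prime_add {d t : ℕ} (hd : 2 ≤ d) (ht : 0 < t) (h : d ∣ t) : ¬ (t + d).Prime := by
  intro hp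
  rcases hp.eq_one_or_self_of_dvd d (Nat.dvd_add h dvd_rfl) with h1 | h1 <;> omega

/-- If `3 (K + 1)!` divides the totient of `n - j` for `1 ≤ j ≤ K`, both windows fail. -/
theorem core (K n : ℕ)
    (h : ∀ j : ℕ, 1 ≤ j → j ≤ K → j < n → 3 * (K + 1).factorial ∣ Nat.totient (n - j))
    (k : ℕ) (h1 : 1 ≤ k) (h2 : k < n) (h3 : k ≤ K ∨ n - k ≤ K) :
    ¬ (3 ∣ Nat.totient (n - k) ∧
      Nat.Prime (Nat.totient k + Nat.totient (n - k) / 3 + 1)) := by
  rintro ⟨h4, hp⟩
  have hk : 0 < Nat.totient k := Nat.totient_pos.2 h1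
  have hm : 0 < Nat.totient (n - k) := Nat.totient_pos.2 (by omega)
  rcases h3 with h3 | h3
  · obtain ⟨t, ht⟩ := h k h1 h3 h2
    have e : Nat.totient (n - k) / 3 = (K + 1).factorial * t := by
      rw [ht, mul_assoc, Nat.mul_div_cancel_left _ (by norm_num)]
    have hle := Nat.totient_le k
    have hd : Nat.totient k + 1 ∣ Nat.totient (n - k) / 3 := by
      rw [e]
      exact (Nat.dvd_factorial (by omega) (by omega)).mul_right t
    refine not_prime_add (by omega) (by omega) hd ?_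
    rwa [show Nat.totient (n - k) / 3 + (Nat.totient k + 1) =
      Nat.totient k + Nat.totient (n - k) / 3 + 1 by omega]
  · have h5 := h (n - k) (by omega) h3 (by omega)
    rw [show n - (n - k) = k by omega] at h5
    have hle := Nat.totient_le (n - k)
    have hd : Nat.totient (n - k) / 3 + 1 ∣ Nat.totient k :=
      (Nat.dvd_factorial (by omega) (by omega)).trans ((Dvd.intro_left 3 rfl).trans h5)
    exact not_prime_add (by omega) hk hd hp

end Pool.Agent.Lib.MP_db85a3_nt.WindowFail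

/-- For every `K`: on a whole residue class of `n`, and for all `n` outside a set of density zero,
no `k` within `K` of either end of `[1, n - 1]` makes `φ(k) + φ(n - k) / 3 + 1` a prime integer. -/
theorem Pool.Agent.Lib.MP_db85a3_nt.WindowFail.window_fail :
    ∀ K : ℕ,
      (∃ D a : ℕ, 0 < D ∧ ∀ n : ℕ, n ≡ a [MOD D] → ∀ k : ℕ, 1 ≤ k → k < n →
        (k ≤ K ∨ n - k ≤ K) →
        ¬ (3 ∣ Nat.totient (n - k) ∧
          Nat.Prime (Nat.totient k + Nat.totient (n - k) / 3 + 1))) ∧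
      ∀ ε : ℝ, 0 < ε → ∃ N₀ : ℕ, ∀ N : ℕ, N₀ ≤ N →
        (Set.ncard {n : ℕ | n < N ∧ ∃ k : ℕ, 1 ≤ k ∧ k < n ∧ (k ≤ K ∨ n - k ≤ K) ∧
          3 ∣ Nat.totient (n - k) ∧
          Nat.Prime (Nat.totient k + Nat.totient (n - k) / 3 + 1)} : ℝ) ≤ ε * N := by
  intro K
  have hW : 3 * (K + 1).factorial ≠ 0 := Nat.mul_ne_zero (by norm_num) (Nat.factorial_ne_zero _)
  refine ⟨?_, fun ε hε => ?_⟩
  · obtain ⟨D, a, hD, h⟩ := Pool.Agent.Lib.MP_db85a3_nt.WindowFail.window_dvd _ hW K
    exact ⟨D, a, hD, fun n hn =>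
      Pool.Agent.Lib.MP_db85a3_nt.WindowFail.core K n (h n hn)⟩
  · have : NeZero (3 * (K + 1).factorial) := ⟨hW⟩
    have hK : (0 : ℝ) < 2 * (K + 1) := by positivity
    obtain ⟨L, hL⟩ := Pool.Agent.Lib.MP_db85a3_nt.WindowFail.count_shift
      (3 * (K + 1).factorial) (ε / (2 * (K + 1))) (by positivity)
    refine ⟨L, fun N hN => ?_⟩
    have hsub : {n : ℕ | n < N ∧ ∃ k : ℕ, 1 ≤ k ∧ k < n ∧ (k ≤ K ∨ n - k ≤ K) ∧
          3 ∣ Nat.totient (n - k) ∧
          Nat.Prime (Nat.totient k + Nat.totient (n - k) / 3 + 1)} ⊆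
        ↑((Finset.range (K + 1)).biUnion fun j => (Finset.range N).filter
          fun n => j < n ∧ ¬ 3 * (K + 1).factorial ∣ Nat.totient (n - j)) := by
      rintro n ⟨hn, k, h1, h2, h3, h4⟩
      by_contra hc
      refine Pool.Agent.Lib.MP_db85a3_nt.WindowFail.core K n (fun j _ hj hjn => ?_)
        k h1 h2 h3 h4
      by_contra hd
      exact hc (Finset.mem_coe.2 (Finset.mem_biUnion.2 ⟨j, Finset.mem_range.2 (by omega),
        Finset.mem_filter.2 ⟨Finset.mem_range.2 hn, hjn, hd⟩⟩))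
    have h1 := Set.ncard_le_ncard hsub (Finset.finite_toSet _)
    rw [Set.ncard_coe_finset] at h1
    have h2 := h1.trans Finset.card_biUnion_le
    have hNL : (L : ℝ) ≤ N := by exact_mod_cast hN
    have hδ : 0 < ε / (2 * (K + 1)) := by positivity
    calc _ ≤ ((∑ j ∈ Finset.range (K + 1), ((Finset.range N).filter
          fun n => j < n ∧ ¬ 3 * (K + 1).factorial ∣ Nat.totient (n - j)).card : ℕ) : ℝ) := by
          exact_mod_cast h2
      _ ≤ ∑ _j ∈ Finset.range (K + 1), ε / (2 * (K + 1)) * (2 * N) := by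
          push_cast
          refine Finset.sum_le_sum fun j _ => (hL N j).trans ?_
          nlinarith [mul_le_mul_of_nonneg_left hNL hδ.le]
      _ = ε * N := by
          rw [Finset.sum_const, Finset.card_range, nsmul_eq_mul]
          push_cast
          field_simp
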